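import Pool.Agent.Helper3_PQX.Stmts
import Pool.Agent.Helper50_DP.Dpg

set_option autoImplicit false

/-!
# Radicals satisfy the condition on germs
-/

universe u

open MvPolynomial PGH PGL

namespace Pool.Agent.PQX.H76

open FibreTowers

section EvLemmas

variable {k M E : Type u} [Field k] [Field M] [Algebra k M] [Field E] [Algebra k E]
  {S : Subalgebra k M} (φ : S →ₐ[k] E)

lemma ev_sub' {a b : M} (ha : a ∈ S) (hb : b ∈ S) : ev φ (a - b) = ev φ a - ev φ b := by
  rw [ev_mem φ ha, ev_mem φ hb, ev_mem φ (sub_mem ha hb), ← map_sub]; rfl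

lemma ev_alg (c : k) : ev φ (algebraMap k M c) = algebraMap k E c := by
  rw [ev_mem φ (S.algebraMap_mem c)]
  exact φ.commutes c

lemma zpow_mem' {a : M} (ha : a ∈ S) (ha' : a⁻¹ ∈ S) (n : ℤ) : a ^ n ∈ S := by
  obtain ⟨j, rfl | rfl⟩ := n.eq_nat_or_neg
  · rw [zpow_natCast]
    exact pow_mem ha j
  · rw [zpow_neg, zpow_natCast, ← inv_pow]
    exact pow_mem ha' j

lemma ev_inv' {a : M} (ha : a ∈ S) (ha' : a⁻¹ ∈ S) (ha0 : a ≠ 0) : ev φ a⁻¹ = (ev φ a)⁻¹ := by
  have h1 := ev_mul φ ha ha'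
  rw [mul_inv_cancel₀ ha0, ev_one] at h1
  exact eq_inv_of_mul_eq_one_right h1.symm

lemma ev_zpow' {a : M} (ha : a ∈ S) (ha' : a⁻¹ ∈ S) (ha0 : a ≠ 0) (n : ℤ) :
    ev φ (a ^ n) = ev φ a ^ n := by
  obtain ⟨j, rfl | rfl⟩ := n.eq_nat_or_neg
  · rw [zpow_natCast, zpow_natCast]
    exact ev_pow φ ha j
  · rw [zpow_neg, zpow_natCast, ← inv_pow, ev_pow φ ha', ev_inv' φ ha ha' ha0, zpow_neg,
      zpow_natCast, inv_pow]

lemma ev_prod' {ι : Type*} (s : Finset ι) (f : ι → M) (h : ∀ i ∈ s, f i ∈ S) :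
    ev φ (∏ i ∈ s, f i) = ∏ i ∈ s, ev φ (f i) := by
  classical
  induction s using Finset.induction_on with
  | empty => rw [Finset.prod_empty, Finset.prod_empty, ev_one]
  | insert a s ha ih =>
    rw [Finset.prod_insert ha, Finset.prod_insert ha, ev_mul φ (h a (Finset.mem_insert_self _ _))
      (prod_mem (fun i hi => h i (Finset.mem_insert_of_mem hi))),
      ih (fun i hi => h i (Finset.mem_insert_of_mem hi))]

end EvLemmas

/-- RAD: radicals satisfy the condition on germs. -/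
theorem rad : RadStmt.{u} := by
  intro k M _ _ _ _ _ F n x A hx hrad
  classical
  obtain ⟨R, e, m, b, z, hrel, hram⟩ := hrad
  have hne : ∀ l (a : k), x l - algebraMap k M a ≠ 0 := by
    intro l a h
    have h1 : x l = algebraMap k M a := sub_eq_zero.1 h
    have h2 : Transcendental k (x l) := hx.transcendental l
    rw [h1] at h2
    exact h2 (isAlgebraic_algebraMap a)
  refine ⟨(Set.range b ∪ Set.range z) ∪
    ⋃ l : Fin n, (((A l).image fun a => (x l - algebraMap k M a)⁻¹ : Finset M) : Set M), ?_, ?_⟩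
  · refine ((Set.finite_range b).union (Set.finite_range z)).union ?_
    exact Set.finite_iUnion fun l => Finset.finite_toSet _
  intro E _ _ _ S hTS hxS φ P hP hreg l a ha hord
  have hbS : ∀ r, b r ∈ S := fun r => hTS (Or.inl (Or.inl ⟨r, rfl⟩))
  have hzS : ∀ r, z r ∈ S := fun r => hTS (Or.inl (Or.inr ⟨r, rfl⟩))
  have hiS : ∀ l, ∀ a ∈ A l, (x l - algebraMap k M a)⁻¹ ∈ S := by
    intro l a ha
    refine hTS (Or.inr (Set.mem_iUnion.2 ⟨l, ?_⟩))
    exact Finset.mem_coe.2 (Finset.mem_image.2 ⟨a, ha, rfl⟩)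
  have hxaS : ∀ l (a : k), x l - algebraMap k M a ∈ S := fun l a =>
    sub_mem (hxS l) (S.algebraMap_mem a)
  have hev : ∀ l (a : k), ev φ (x l - algebraMap k M a) = ev φ (x l) - algebraMap k E a := by
    intro l a
    rw [ev_sub' φ (hxS l) (S.algebraMap_mem a), ev_alg]
  have hev0 : ∀ l, ∀ a ∈ A l, ev φ (x l) - algebraMap k E a ≠ 0 := by
    intro l a ha
    rw [← hev]
    exact ev_ne_zero φ (hxaS l a) (hiS l a ha) (hne l a)
  have hb0 : ∀ r, P.ord (ev φ (b r)) = 0 ∧ ev φ (b r) ≠ 0 := by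
    intro r
    obtain ⟨h1, h2⟩ := hP (b r) (Or.inl (Or.inl ⟨r, rfl⟩)) (hrel r).1 (hrel r).2.1
    have h3 : ev φ (b r) ≠ 0 := by
      intro h
      rw [h] at h2
      exact h2 (P.ge_zero 1)
    refine ⟨?_, h3⟩
    rw [P.ge_iff h3] at h1 h2
    omega
  by_contra hcon
  push Not at hcon
  -- the orders of the other factors
  have h0 : ∀ l', ∀ a' ∈ A l', (l' = l → a' ≠ a) →
      P.ord (ev φ (x l') - algebraMap k E a') = 0 := by
    intro l' a' ha' hne'
    by_cases h : l' = l
    · subst h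
      have h1 : a' ≠ a := hne' rfl
      have h2 : ¬ P.Ge 1 (ev φ (x l') - algebraMap k E a') := by
        intro h3
        have h4 : P.Ge 1 (ev φ (x l') - algebraMap k E a) := by
          rw [P.ge_iff (hev0 l' a ha), hord]
        have h5 := h4.sub h3
        have h6 : ev φ (x l') - algebraMap k E a - (ev φ (x l') - algebraMap k E a') =
            algebraMap k E (a' - a) := by
          rw [map_sub]
          ring
        rw [h6, P.ge_iff (by
          rw [Ne, map_eq_zero]
          exact sub_ne_zero.2 h1), P.ord_const] at h5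
        omega
      have h3 : P.Ge 0 (ev φ (x l') - algebraMap k E a') := (hreg l').sub (P.ge_const _)
      rw [P.ge_iff (hev0 l' a' ha')] at h2 h3
      omega
    · have h2 := hcon l' h a' ha'
      have h3 : P.Ge 0 (ev φ (x l') - algebraMap k E a') := (hreg l').sub (P.ge_const _)
      rw [P.ge_iff (hev0 l' a' ha')] at h2 h3
      omega
  obtain ⟨r, hr⟩ := hram l a ha
  apply hr
  have hprod : ∏ l, ∏ a ∈ A l, (ev φ (x l) - algebraMap k E a) ^ e l a r =
      ev φ (b r) * ev φ (z r) ^ m r := by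
    rw [← ev_pow φ (hzS r), ← ev_mul φ (hbS r) (pow_mem (hzS r) _), ← (hrel r).2.2,
      ev_prod' φ]
    · refine Finset.prod_congr rfl fun l _ => ?_
      rw [ev_prod' φ]
      · refine Finset.prod_congr rfl fun a ha => ?_
        rw [ev_zpow' φ (hxaS l a) (hiS l a ha) (hne l a), hev]
      · exact fun a ha => zpow_mem' (hxaS l a) (hiS l a ha) _
    · exact fun l _ => prod_mem fun a ha => zpow_mem' (hxaS l a) (hiS l a ha) _
  have hin0 : ∀ l, ∏ a ∈ A l, (ev φ (x l) - algebraMap k E a) ^ e l a r ≠ 0 := fun l =>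
    Finset.prod_ne_zero_iff.2 fun a ha => zpow_ne_zero _ (hev0 l a ha)
  have hL : ∏ l, ∏ a ∈ A l, (ev φ (x l) - algebraMap k E a) ^ e l a r ≠ 0 :=
    Finset.prod_ne_zero_iff.2 fun l _ => hin0 l
  have hz : ev φ (z r) ^ m r ≠ 0 := by
    intro h
    rw [hprod, h, mul_zero] at hL
    exact hL rfl
  have h1 := congrArg P.ord hprod
  rw [DP.ord_prod' P Finset.univ _ (fun l _ => hin0 l), P.ord_mul (hb0 r).2 hz, (hb0 r).1,
    zero_add, P.ord_pow] at h1
  have h2 : ∀ l', P.ord (∏ a ∈ A l', (ev φ (x l') - algebraMap k E a) ^ e l' a r) =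
      if l' = l then e l a r else 0 := by
    intro l'
    rw [DP.ord_prod' P (A l') _ (fun a ha => zpow_ne_zero _ (hev0 l' a ha))]
    split_ifs with h
    · subst h
      rw [Finset.sum_eq_single a]
      · rw [P.ord_zpow, hord, mul_one]
      · intro a' ha' hne'
        rw [P.ord_zpow, h0 l' a' ha' (fun _ => hne'), mul_zero]
      · intro h; exact absurd ha h
    · refine Finset.sum_eq_zero fun a' ha' => ?_
      rw [P.ord_zpow, h0 l' a' ha' (fun h' => absurd h' h), mul_zero]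
  rw [Finset.sum_congr rfl (fun l' _ => h2 l'), Finset.sum_ite_eq' Finset.univ l
    (fun _ => e l a r), if_pos (Finset.mem_univ _)] at h1
  exact ⟨P.ord (ev φ (z r)), by linarith⟩

end Pool.Agent.PQX.H76
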